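import Pool.Agent.P8H97.HR.Stm

/-! Project HR, package E: the differential of a differentiable class function on `SL(4,R)`. -/

namespace P8H97.HR

open Matrix

/-- `1 + N` for a rank one nilpotent `N = v wᵀ` -/
noncomputable def nil4 (v w : Fin 4 → ℝ) (h : w ⬝ᵥ v = 0) (t : ℝ) : SL4 :=
  ⟨1 + t • vecMulVec v w, by
    have := Matrix.det_one_add_replicateCol_mul_replicateRow (ι := Unit) (t • v) w
    rw [← Matrix.vecMulVec_eq Unit] at this
    rw [Matrix.smul_vecMulVec] at this
    rw [this, dotProduct_smul, h, smul_zero, add_zero]⟩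

theorem nil4_coe (v w : Fin 4 → ℝ) (h : w ⬝ᵥ v = 0) (t : ℝ) :
    (nil4 v w h t : M4) = 1 + t • vecMulVec v w := rfl

theorem nil_sq (v w : Fin 4 → ℝ) (h : w ⬝ᵥ v = 0) : vecMulVec v w * vecMulVec v w = 0 := by
  rw [Matrix.vecMulVec_mul_vecMulVec, h]
  simp

theorem nil4_inv (v w : Fin 4 → ℝ) (h : w ⬝ᵥ v = 0) (t : ℝ) :
    (nil4 v w h t)⁻¹ = nil4 v w h (-t) := by
  rw [inv_eq_iff_mul_eq_one]
  apply Subtype.ext
  rw [Matrix.SpecialLinearGroup.coe_mul, nil4_coe, nil4_coe, Matrix.SpecialLinearGroup.coe_one]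
  have h2 : t • vecMulVec v w * -t • vecMulVec v w = 0 := by
    rw [Matrix.smul_mul, Matrix.mul_smul, nil_sq v w h, smul_zero, smul_zero]
  rw [add_mul, mul_add, mul_add, h2]
  simp

/-- a linear functional vanishing on rank one nilpotents vanishes on traceless matrices -/
theorem functional_zero (φ : M4 →ₗ[ℝ] ℝ)
    (h : ∀ v w : Fin 4 → ℝ, w ⬝ᵥ v = 0 → φ (vecMulVec v w) = 0) (X : M4) (hX : X.trace = 0) :
    φ X = 0 := by
  have h1 : ∀ i j : Fin 4, i ≠ j → φ (Matrix.single i j 1) = 0 := by
    intro i j hij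
    have := h (Pi.single i 1) (Pi.single j 1) (by simp [hij])
    rwa [← Matrix.single_eq_single_vecMulVec_single] at this
  have h2 : ∀ i : Fin 4, φ (Matrix.single i i 1) = φ (Matrix.single 0 0 1) := by
    intro i
    by_cases hi : i = 0
    · rw [hi]
    · have := h (Pi.single i 1 - Pi.single 0 1) (Pi.single i 1 + Pi.single 0 1) (by
        simp [hi, Ne.symm hi])
      rw [Matrix.sub_vecMulVec, Matrix.vecMulVec_add, Matrix.vecMulVec_add,
        ← Matrix.single_eq_single_vecMulVec_single, ← Matrix.single_eq_single_vecMulVec_single,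
        ← Matrix.single_eq_single_vecMulVec_single, ← Matrix.single_eq_single_vecMulVec_single,
        map_sub, map_add, map_add, h1 i 0 hi, h1 0 i (Ne.symm hi)] at this
      linarith
  have h3 : ∀ i j : Fin 4, φ (Matrix.single i j (X i j)) =
      if i = j then X i i * φ (Matrix.single 0 0 1) else 0 := by
    intro i j
    have : Matrix.single i j (X i j) = X i j • Matrix.single i j (1 : ℝ) := by
      rw [Matrix.smul_single, smul_eq_mul, mul_one]
    rw [this, map_smul, smul_eq_mul]
    split_ifs with hij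
    · subst hij; rw [h2]
    · rw [h1 i j hij, mul_zero]
  rw [Matrix.matrix_eq_sum_single X, map_sum]
  simp only [map_sum, h3]
  simp only [Finset.sum_ite_eq, Finset.mem_univ, if_true]
  rw [← Finset.sum_mul]
  rw [Matrix.trace] at hX
  simp only [Matrix.diag] at hX
  rw [hX, zero_mul]

theorem quad_deriv (P Q R : M4) (i j : Fin 4) :
    HasDerivAt (fun t : ℝ => (P + t • Q + t ^ 2 • R) i j) (Q i j) 0 := by
  have h1 : HasDerivAt (fun t : ℝ => P i j + t * Q i j + t ^ 2 * R i j)
      (0 + 1 * Q i j + (2 * 0) * R i j) 0 := by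
    have a := (hasDerivAt_id (0 : ℝ)).mul_const (Q i j)
    have b := ((hasDerivAt_pow 2 (0 : ℝ))).mul_const (R i j)
    have c := ((hasDerivAt_const (0 : ℝ) (P i j)).add a).add b
    refine (c.congr_deriv ?_)
    norm_num
  have h2 : (0 + 1 * Q i j + (2 * 0) * R i j) = Q i j := by ring
  rw [h2] at h1
  exact h1

theorem part_E : S_E := by
  intro f hf
  choose F hF hFf using hf.diff
  let l : SL4 → (M4 →ₗ[ℝ] ℝ) := fun g =>
    (fderiv ℝ (F g) (fun i j => (g : M4) i j)).toLinearMap.comp
      ((Matrix.ofLinearEquiv ℝ).symm : M4 ≃ₗ[ℝ] (Fin 4 → Fin 4 → ℝ)).toLinearMap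
  have h1 : ∀ (u : ℝ → SL4) (V : M4), (∀ i j, HasDerivAt (fun t => (u t : M4) i j) (V i j) 0) →
      HasDerivAt (fun t => f (u t)) (l (u 0) V) 0 := by
    intro u V hu
    have hpi : HasDerivAt (fun t => (fun i j => (u t : M4) i j : Fin 4 → Fin 4 → ℝ))
        (fun i j => V i j) 0 := by
      rw [hasDerivAt_pi]
      intro i
      rw [hasDerivAt_pi]
      intro j
      exact hu i j
    have h := (hF (u 0)).hasFDerivAt.comp_hasDerivAt (0 : ℝ) hpi
    have hfun : (F (u 0) ∘ fun t => (fun i j => (u t : M4) i j : Fin 4 → Fin 4 → ℝ)) =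
        fun t => f (u t) := by
      funext t
      exact hFf (u 0) (u t)
    rw [hfun] at h
    exact h
  refine ⟨l, h1, ?_, ?_⟩
  · intro g X
    -- reduce to rank one nilpotents
    let φ : M4 →ₗ[ℝ] ℝ :=
      (l g).comp (LinearMap.mulRight ℝ (g : M4) - LinearMap.mulLeft ℝ (g : M4))
    have hφ : ∀ Y : M4, φ Y = l g (Y * (g : M4) - (g : M4) * Y) := fun Y => rfl
    have key : ∀ v w : Fin 4 → ℝ, w ⬝ᵥ v = 0 → φ (vecMulVec v w) = 0 := by
      intro v w hvw
      let u : ℝ → SL4 := fun t => nil4 v w hvw t * g * (nil4 v w hvw t)⁻¹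
      have hu0 : u 0 = g := by
        have : nil4 v w hvw 0 = 1 := by
          apply Subtype.ext
          rw [nil4_coe, zero_smul, add_zero, Matrix.SpecialLinearGroup.coe_one]
        simp only [u, this, one_mul, inv_one, mul_one]
      have hcoe : ∀ t, (u t : M4) = (g : M4) +
          t • (vecMulVec v w * (g : M4) - (g : M4) * vecMulVec v w) +
          t ^ 2 • (-(vecMulVec v w * (g : M4) * vecMulVec v w)) := by
        intro t
        simp only [u]
        rw [nil4_inv, Matrix.SpecialLinearGroup.coe_mul, Matrix.SpecialLinearGroup.coe_mul,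
          nil4_coe, nil4_coe]
        generalize vecMulVec v w = N
        rw [neg_smul]
        simp only [add_mul, mul_add, mul_neg, one_mul, mul_one]
        rw [Matrix.smul_mul, Matrix.mul_smul, Matrix.mul_smul, Matrix.smul_mul, smul_sub,
          smul_neg, smul_smul, pow_two]
        abel
      have hd := h1 u (vecMulVec v w * (g : M4) - (g : M4) * vecMulVec v w) (by
        intro i j
        simp only [hcoe]
        exact quad_deriv _ _ _ i j)
      have hc : (fun t => f (u t)) = fun _ => f g := by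
        funext t
        exact hf.conj g (nil4 v w hvw t)
      rw [hc, hu0] at hd
      rw [hφ]
      exact hd.unique (hasDerivAt_const 0 (f g))
    have hX : (X - (X.trace / 4) • (1 : M4)).trace = 0 := by
      rw [Matrix.trace_sub, Matrix.trace_smul, Matrix.trace_one]
      simp
    have h0 := functional_zero φ key _ hX
    rw [hφ] at h0
    rw [← h0]
    congr 1
    rw [Matrix.sub_mul, Matrix.mul_sub, Matrix.smul_mul, Matrix.mul_smul, one_mul, mul_one]
    abel
  · intro g g' h hdet hg X hX
    set s : ℝ := h.det ^ (-(1 / 4) : ℝ) with hs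
    have hs4 : s ^ 4 * h.det = 1 := by
      rw [hs, ← Real.rpow_natCast, ← Real.rpow_mul hdet.le]
      norm_num
      rw [Real.rpow_neg hdet.le, Real.rpow_one]
      exact inv_mul_cancel₀ hdet.ne'
    have hs0 : s ≠ 0 := by
      intro h0
      rw [h0] at hs4
      norm_num at hs4
    let k : SL4 := ⟨s • h, by
      rw [Matrix.det_smul, Fintype.card_fin]
      exact hs4⟩
    have hk : (k : M4) = s • h := rfl
    have hhinv : h * h⁻¹ = 1 := Matrix.mul_nonsing_inv h (isUnit_iff_ne_zero.mpr hdet.ne')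
    have hkinv : ((k⁻¹ : SL4) : M4) = s⁻¹ • h⁻¹ := by
      have e1 : (k : M4) * (s⁻¹ • h⁻¹) = 1 := by
        rw [hk, Matrix.smul_mul, Matrix.mul_smul, hhinv, smul_smul, mul_inv_cancel₀ hs0, one_smul]
      have e2 : ((k⁻¹ : SL4) : M4) * (k : M4) = 1 := by
        rw [← Matrix.SpecialLinearGroup.coe_mul, inv_mul_cancel, Matrix.SpecialLinearGroup.coe_one]
      calc ((k⁻¹ : SL4) : M4) = ((k⁻¹ : SL4) : M4) * ((k : M4) * (s⁻¹ • h⁻¹)) := by
            rw [e1, mul_one]
        _ = s⁻¹ • h⁻¹ := by rw [← mul_assoc, e2, one_mul]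
    have hconj : ∀ Y : M4, (k : M4) * Y * ((k⁻¹ : SL4) : M4) = h * Y * h⁻¹ := by
      intro Y
      rw [hk, hkinv, Matrix.smul_mul, Matrix.smul_mul, Matrix.mul_smul, smul_smul,
        mul_inv_cancel₀ hs0, one_smul]
    have hg' : k * g * k⁻¹ = g' := by
      apply Subtype.ext
      rw [Matrix.SpecialLinearGroup.coe_mul, Matrix.SpecialLinearGroup.coe_mul, hconj, hg,
        mul_assoc, hhinv, mul_one]
    let φ : M4 →ₗ[ℝ] ℝ :=
      (l g').comp ((LinearMap.mulRight ℝ (h⁻¹)).comp ((LinearMap.mulLeft ℝ h).comp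
        (LinearMap.mulRight ℝ (g : M4)))) - (l g).comp (LinearMap.mulRight ℝ (g : M4))
    have hφ : ∀ Y : M4, φ Y = l g' (h * (Y * (g : M4)) * h⁻¹) - l g (Y * (g : M4)) :=
      fun Y => rfl
    have key : ∀ v w : Fin 4 → ℝ, w ⬝ᵥ v = 0 → φ (vecMulVec v w) = 0 := by
      intro v w hvw
      let u : ℝ → SL4 := fun t => nil4 v w hvw t * g
      let u' : ℝ → SL4 := fun t => k * u t * k⁻¹
      have hu0 : u 0 = g := by
        have : nil4 v w hvw 0 = 1 := by
          apply Subtype.ext
          rw [nil4_coe, zero_smul, add_zero, Matrix.SpecialLinearGroup.coe_one]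
        simp only [u, this, one_mul]
      have hu0' : u' 0 = g' := by
        simp only [u', hu0, hg']
      have hcoe : ∀ t, (u t : M4) = (g : M4) + t • (vecMulVec v w * (g : M4)) +
          t ^ 2 • (0 : M4) := by
        intro t
        simp only [u]
        rw [Matrix.SpecialLinearGroup.coe_mul, nil4_coe]
        simp only [add_mul, Matrix.smul_mul, one_mul, smul_zero, add_zero]
      have hcoe' : ∀ t, (u' t : M4) = h * (g : M4) * h⁻¹ +
          t • (h * (vecMulVec v w * (g : M4)) * h⁻¹) + t ^ 2 • (0 : M4) := by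
        intro t
        simp only [u']
        rw [Matrix.SpecialLinearGroup.coe_mul, Matrix.SpecialLinearGroup.coe_mul, hconj, hcoe]
        simp only [add_mul, mul_add, Matrix.smul_mul, Matrix.mul_smul, smul_zero, add_zero]
      have hd := h1 u (vecMulVec v w * (g : M4)) (by
        intro i j
        simp only [hcoe]
        exact quad_deriv _ _ _ i j)
      have hd' := h1 u' (h * (vecMulVec v w * (g : M4)) * h⁻¹) (by
        intro i j
        simp only [hcoe']
        exact quad_deriv _ _ _ i j)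
      have hc : (fun t => f (u' t)) = fun t => f (u t) := by
        funext t
        exact hf.conj (u t) k
      rw [hc, hu0'] at hd'
      rw [hu0] at hd
      rw [hφ, hd'.unique hd, sub_self]
    have h0 := functional_zero φ key X hX
    rw [hφ] at h0
    linarith

end P8H97.HR
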